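import Pool.Agent.helper7.EP.SpecH

set_option autoImplicit false

open Finset

namespace Pool.Agent.EP

theorem JN_neg_one : ac (-1) = 1 := by
  unfold ac pp
  rw [if_pos (by decide)]
  simp

theorem JN_term (j d : ℕ) (M : ℤ) (hj : 0 < j) (hM : M < 0) (hd : d ∣ j) (hdM : (d : ℤ) ∣ M) :
    ac ((j : ℤ) * M / (d : ℤ) ^ 2) = if d = j ∧ M = -(j : ℤ) then 1 else 0 := by
  obtain ⟨j', rfl⟩ := hd
  obtain ⟨M', rfl⟩ := hdM
  have hd0 : 0 < d := Nat.pos_of_mul_pos_right hj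
  have hj0 : 0 < j' := Nat.pos_of_mul_pos_left hj
  have hd1 : (0 : ℤ) < (d : ℤ) := by exact_mod_cast hd0
  have hj1 : (1 : ℤ) ≤ (j' : ℤ) := by exact_mod_cast hj0
  have hM' : M' < 0 := by
    by_contra h
    have h1 : 0 ≤ M' := by omega
    have := mul_nonneg hd1.le h1
    omega
  have h1 : (((d * j' : ℕ) : ℤ)) * ((d : ℤ) * M') / (d : ℤ) ^ 2 = (j' : ℤ) * M' := by
    have h2 : (((d * j' : ℕ) : ℤ)) * ((d : ℤ) * M') = (d : ℤ) ^ 2 * ((j' : ℤ) * M') := by
      push_cast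
      ring
    rw [h2, Int.mul_ediv_cancel_left _ (by positivity)]
  rw [h1]
  by_cases hc : j' = 1 ∧ M' = -1
  · obtain ⟨rfl, rfl⟩ := hc
    rw [if_pos ⟨by omega, by push_cast; ring⟩]
    have : ((1 : ℕ) : ℤ) * (-1) = -1 := by norm_num
    rw [this, JN_neg_one]
  · have h3 : (j' : ℤ) * M' < -1 := by
      by_cases hj2 : j' = 1
      · subst hj2
        have : M' ≠ -1 := fun h => hc ⟨rfl, h⟩
        push_cast
        omega
      · have h4 : (2 : ℤ) ≤ (j' : ℤ) := by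
          have : 2 ≤ j' := by omega
          exact_mod_cast this
        nlinarith
    have h4 : ac ((j' : ℤ) * M') = 0 := by
      unfold ac
      rw [if_neg]
      rintro ⟨-, h5⟩
      omega
    rw [h4, if_neg]
    rintro ⟨h5, h6⟩
    apply hc
    have h7 : j' = 1 := by
      have : d * j' = d * 1 := by omega
      exact Nat.eq_of_mul_eq_mul_left hd0 this
    refine ⟨h7, ?_⟩
    subst h7
    push_cast at h6
    have : (d : ℤ) * M' = (d : ℤ) * (-1) := by linarith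
    exact mul_left_cancel₀ hd1.ne' this

theorem JN : JN_stmt := by
  intro j M hj hM
  unfold JG
  have h1 : ∑ d ∈ j.divisors.filter (fun d : ℕ => (d : ℤ) ∣ M), ac ((j : ℤ) * M / (d : ℤ) ^ 2) =
      ∑ d ∈ j.divisors.filter (fun d : ℕ => (d : ℤ) ∣ M),
        if d = j ∧ M = -(j : ℤ) then (1 : ZMod 2) else 0 := by
    refine Finset.sum_congr rfl fun d hd => ?_
    rw [Finset.mem_filter, Nat.mem_divisors] at hd
    exact JN_term j d M hj hM hd.1.1 hd.2
  rw [h1]
  by_cases hMj : M = -(j : ℤ)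
  · rw [if_pos hMj]
    have h2 : j ∈ j.divisors.filter (fun d : ℕ => (d : ℤ) ∣ M) := by
      rw [Finset.mem_filter, Nat.mem_divisors]
      exact ⟨⟨dvd_rfl, hj.ne'⟩, by rw [hMj]; exact (dvd_neg).2 dvd_rfl⟩
    rw [Finset.sum_eq_single_of_mem j h2]
    · rw [if_pos ⟨rfl, hMj⟩]
    · intro d _ hdj
      rw [if_neg (fun h => hdj h.1)]
  · rw [if_neg hMj]
    refine Finset.sum_eq_zero fun d _ => ?_
    rw [if_neg (fun h => hMj h.2)]

end Pool.Agent.EP
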